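import Pool.Agent.Y198.MC.Stm

/-! The covering of degree three: the extension of function fields has degree three. -/

set_option autoImplicit false

namespace Pool.Agent.Y550.MC

open MvPolynomial Pool.Agent.Y198.MC

section
variable {A : Type} [CommRing A] {N : ℕ}

theorem cub_mulc (u v : Fin N → A) (x : Fin 2 → A) (q : Fin 3 → A) (t : Ta N) :
    cub u v (mulc x q) t = vec u v x t.1 * quad u v q (t.2.1, t.2.2) +
      vec u v x t.2.1 * quad u v q (t.1, t.2.2) + vec u v x t.2.2 * quad u v q (t.1, t.2.1) := by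
  simp only [cub, mulc, vec, quad, Matrix.cons_val_zero, Matrix.cons_val_one, Matrix.cons_val]
  ring

theorem quad_symm (u v : Fin N → A) (q : Fin 3 → A) (a b : Fin N) :
    quad u v q (a, b) = quad u v q (b, a) := by
  simp only [quad]
  ring

end

section
set_option linter.unusedSectionVars false
set_option linter.unusedSimpArgs false
variable {k W ι : Type} [Field k] [CharZero k] [Field W] [Algebra k W]

/-- the map given by the multiplication, in coordinates -/
noncomputable def GG (k ι : Type) [Field k] : ι ⊕ Fin 3 → MvPolynomial (ι ⊕ Fin 3) k :=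
  Sum.elim (fun i => X (.inl i)) ![C (1 / 3) * (2 * X (.inr 1) + X (.inr 0)),
    C (1 / 3) * (X (.inr 2) + 2 * X (.inr 0) * X (.inr 1)), X (.inr 0) * X (.inr 2)]

theorem aeval_GG_surj {K : Type} [Field K] [CharZero K] [Algebra k K] [IsAlgClosed K]
    (c : ι ⊕ Fin 3 → K) : ∃ c' : ι ⊕ Fin 3 → K, ∀ i, aeval c' (GG k ι i) = c i := by
  obtain ⟨y, hy⟩ := IsAlgClosed.exists_root (Polynomial.X ^ 3 -
    Polynomial.C (3 * c (.inr 0)) * Polynomial.X ^ 2 + Polynomial.C (3 * c (.inr 1)) * Polynomial.X -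
    Polynomial.C (c (.inr 2)) : Polynomial K) (by
      have : (Polynomial.X ^ 3 -
        Polynomial.C (3 * c (.inr 0)) * Polynomial.X ^ 2 +
        Polynomial.C (3 * c (.inr 1)) * Polynomial.X -
        Polynomial.C (c (.inr 2)) : Polynomial K).degree = 3 := by
        compute_degree!
      rw [this]
      norm_num)
  simp only [Polynomial.IsRoot.def, Polynomial.eval_sub, Polynomial.eval_add, Polynomial.eval_mul,
    Polynomial.eval_pow, Polynomial.eval_X, Polynomial.eval_C] at hy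
  have h3 : (algebraMap k K) (1 / 3) = 1 / 3 := by rw [map_div₀, map_one, map_ofNat]
  have h30 : (3 : K) ≠ 0 := by norm_num
  have h20 : (2 : K) ≠ 0 := by norm_num
  obtain ⟨p, hp⟩ : ∃ p, 2 * p = 3 * c (.inr 0) - y := ⟨(3 * c (.inr 0) - y) / 2, by field_simp⟩
  obtain ⟨q, hq⟩ : ∃ q, q = 3 * c (.inr 1) - 2 * y * p := ⟨_, rfl⟩
  refine ⟨Sum.elim (fun i => c (.inl i)) ![y, p, q], ?_⟩
  rintro (i | i)
  · simp [GG]
  · fin_cases i
    · simp only [GG, Fin.zero_eta, Sum.elim_inr, Matrix.cons_val_zero, map_mul, map_add, map_ofNat,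
        aeval_X, aeval_C, h3, Matrix.cons_val_one]
      rw [hp]
      field_simp
      ring
    · simp only [GG, Fin.mk_one, Sum.elim_inr, Matrix.cons_val_zero, map_mul, map_add, map_ofNat,
        aeval_X, aeval_C, h3, Matrix.cons_val_one, Matrix.cons_val]
      rw [hq]
      field_simp
      ring
    · simp only [GG, Fin.reduceFinMk, Sum.elim_inr, Matrix.cons_val_zero, map_mul, aeval_X,
        Matrix.cons_val]
      rw [hq]
      linear_combination hy + (-y ^ 2) * hp

theorem aeval_GG (F F' : ι ⊕ Fin 3 → W) (h1 : ∀ i, F' (.inl i) = F (.inl i))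
    (hA : 3 * F' (.inr 0) = 2 * F (.inr 1) + F (.inr 0))
    (hB : 3 * F' (.inr 1) = F (.inr 2) + 2 * F (.inr 0) * F (.inr 1))
    (hC : F' (.inr 2) = F (.inr 0) * F (.inr 2)) : ∀ i, F' i = aeval F (GG k ι i) := by
  have : CharZero W := charZero_of_injective_algebraMap (algebraMap k W).injective
  have h3 : (algebraMap k W) (1 / 3) = 1 / 3 := by rw [map_div₀, map_one, map_ofNat]
  have h30 : (3 : W) ≠ 0 := by norm_num
  rintro (i | i)
  · simp [GG, h1]
  · fin_cases i
    · simp only [GG, Fin.zero_eta, Sum.elim_inr, Matrix.cons_val_zero, map_mul, map_add, map_ofNat,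
        aeval_X, aeval_C, h3, Matrix.cons_val_one]
      rw [← hA]
      field_simp
    · simp only [GG, Fin.mk_one, Sum.elim_inr, Matrix.cons_val_zero, map_mul, map_add, map_ofNat,
        aeval_X, aeval_C, h3, Matrix.cons_val_one, Matrix.cons_val]
      rw [← hB]
      field_simp
    · simp only [GG, Fin.reduceFinMk, Sum.elim_inr, Matrix.cons_val_zero, map_mul, aeval_X,
        Matrix.cons_val]
      rw [hC]

theorem indep (F F' : ι ⊕ Fin 3 → W) (hF : AlgebraicIndependent k F)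
    (h1 : ∀ i, F' (.inl i) = F (.inl i))
    (hA : 3 * F' (.inr 0) = 2 * F (.inr 1) + F (.inr 0))
    (hB : 3 * F' (.inr 1) = F (.inr 2) + 2 * F (.inr 0) * F (.inr 1))
    (hC : F' (.inr 2) = F (.inr 0) * F (.inr 2)) : AlgebraicIndependent k F' := by
  have hG := aeval_GG (k := k) F F' h1 hA hB hC
  rw [algebraicIndependent_iff]
  intro P hP
  have e1 : F' = fun i => aeval F (GG k ι i) := funext hG
  rw [e1] at hP
  have h2 : aeval F (bind₁ (GG k ι) P) = 0 := by
    rw [aeval_bind₁]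
    exact hP
  have h3 : bind₁ (GG k ι) P = 0 := (algebraicIndependent_iff.1 hF) _ h2
  have h4 : MvPolynomial.map (algebraMap k (AlgebraicClosure k)) P = 0 := by
    apply MvPolynomial.funext
    intro c
    have : CharZero (AlgebraicClosure k) :=
      charZero_of_injective_algebraMap (algebraMap k (AlgebraicClosure k)).injective
    obtain ⟨c', hc'⟩ := aeval_GG_surj (k := k) (ι := ι) c
    have h5 : aeval c' (bind₁ (GG k ι) P) = aeval c P := by
      rw [aeval_bind₁]
      congr 2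
      exact funext hc'
    rw [h3, map_zero] at h5
    rw [map_zero, eval_map, ← aeval_def, ← h5]
  exact (MvPolynomial.map_injective _ (algebraMap k (AlgebraicClosure k)).injective)
    (by rw [h4, map_zero])

theorem no_poly_root (R : MvPolynomial (ι ⊕ Fin 3) k)
    (h : R ^ 3 - 3 * X (.inr 0) * R ^ 2 + 3 * X (.inr 1) * R - X (.inr 2) = 0) : False := by
  classical
  have h1 := congrArg (aeval (Sum.elim (fun _ : ι => (0 : Polynomial k)) ![0, 0, Polynomial.X])) h
  simp only [map_sub, map_add, map_mul, map_pow, aeval_X, Sum.elim_inr, Matrix.cons_val_zero,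
    Matrix.cons_val_one, Matrix.cons_val, mul_zero, zero_mul, sub_zero, add_zero, map_zero] at h1
  have h2 := congrArg Polynomial.natDegree (sub_eq_zero.1 h1)
  rw [Polynomial.natDegree_pow, Polynomial.natDegree_X] at h2
  omega

theorem no_root (F : ι ⊕ Fin 3 → W) (hF : AlgebraicIndependent k F) (ρ : W)
    (hρ : ρ ∈ IntermediateField.adjoin k (Set.range F))
    (h : ρ ^ 3 - 3 * F (.inr 0) * ρ ^ 2 + 3 * F (.inr 1) * ρ - F (.inr 2) = 0) : False := by
  rw [IntermediateField.mem_adjoin_range_iff] at hρ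
  obtain ⟨P, Q, rfl⟩ := hρ
  by_cases hQ : aeval F Q = (0 : W)
  · rw [hQ, div_zero] at h
    have h2 : F (.inr 2) = 0 := by linear_combination -h
    have h3 := (algebraicIndependent_iff.1 hF) (X (.inr 2)) (by rw [aeval_X, h2])
    exact X_ne_zero _ h3
  have hQ0 : Q ≠ 0 := by
    rintro rfl
    exact hQ (map_zero _)
  have h1 : aeval F (P ^ 3 - 3 * X (.inr 0) * P ^ 2 * Q + 3 * X (.inr 1) * P * Q ^ 2 -
      X (.inr 2) * Q ^ 3) = (0 : W) := by
    simp only [map_sub, map_add, map_mul, map_pow, aeval_X, map_ofNat]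
    field_simp at h
    linear_combination h
  have h2 := (algebraicIndependent_iff.1 hF) _ h1
  obtain ⟨z, hz⟩ : ∃ z : FractionRing (MvPolynomial (ι ⊕ Fin 3) k),
    z = algebraMap _ _ P / algebraMap _ _ Q := ⟨_, rfl⟩
  have hQ1 : (algebraMap (MvPolynomial (ι ⊕ Fin 3) k) (FractionRing (MvPolynomial (ι ⊕ Fin 3) k)))
      Q ≠ 0 := by
    rw [Ne, FaithfulSMul.algebraMap_eq_zero_iff]
    exact hQ0
  have h3 : z ^ 3 - 3 * algebraMap _ _ (X (.inr 0) : MvPolynomial (ι ⊕ Fin 3) k) * z ^ 2 +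
      3 * algebraMap _ _ (X (.inr 1) : MvPolynomial (ι ⊕ Fin 3) k) * z -
      algebraMap _ _ (X (.inr 2) : MvPolynomial (ι ⊕ Fin 3) k) = 0 := by
    have h4 := congrArg (algebraMap (MvPolynomial (ι ⊕ Fin 3) k)
      (FractionRing (MvPolynomial (ι ⊕ Fin 3) k))) h2
    simp only [map_sub, map_add, map_mul, map_pow, map_ofNat, map_zero] at h4
    rw [hz]
    field_simp
    linear_combination h4
  have h4 : IsIntegral (MvPolynomial (ι ⊕ Fin 3) k) z := by
    refine ⟨Polynomial.X ^ 3 - Polynomial.C (3 * X (.inr 0)) * Polynomial.X ^ 2 +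
      Polynomial.C (3 * X (.inr 1)) * Polynomial.X - Polynomial.C (X (.inr 2)), ?_, ?_⟩
    · monicity!
    · simp only [Polynomial.eval₂_sub, Polynomial.eval₂_add, Polynomial.eval₂_mul,
        Polynomial.eval₂_pow, Polynomial.eval₂_X, Polynomial.eval₂_C, map_mul, map_ofNat,
        Polynomial.eval₂_ofNat]
      exact h3
  obtain ⟨R, hR⟩ := IsIntegrallyClosed.isIntegral_iff.1 h4
  refine no_poly_root R ?_
  apply FaithfulSMul.algebraMap_injective (MvPolynomial (ι ⊕ Fin 3) k)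
    (FractionRing (MvPolynomial (ι ⊕ Fin 3) k))
  simp only [map_sub, map_add, map_mul, map_pow, map_ofNat, map_zero]
  rw [hR]
  exact h3

open IntermediateField in
theorem fields (F F' : ι ⊕ Fin 3 → W) (hF : AlgebraicIndependent k F)
    (h1 : ∀ i, F' (.inl i) = F (.inl i))
    (hA : 3 * F' (.inr 0) = 2 * F (.inr 1) + F (.inr 0))
    (hB : 3 * F' (.inr 1) = F (.inr 2) + 2 * F (.inr 0) * F (.inr 1))
    (hC : F' (.inr 2) = F (.inr 0) * F (.inr 2)) (E : IntermediateField k W)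
    (hLE : adjoin k (Set.range F') ≤ E) (hEK : E ≤ adjoin k (Set.range F)) :
    E = adjoin k (Set.range F') ∨ E = adjoin k (Set.range F) := by
  have : CharZero W := charZero_of_injective_algebraMap (algebraMap k W).injective
  have hF' := indep F F' hF h1 hA hB hC
  obtain ⟨L, hL⟩ : ∃ L, L = adjoin k (Set.range F') := ⟨_, rfl⟩
  obtain ⟨K, hK⟩ : ∃ K, K = adjoin k (Set.range F) := ⟨_, rfl⟩
  rw [← hL] at hLE ⊢
  rw [← hK] at hEK ⊢
  have hmL : ∀ i, F' i ∈ L := fun i => by
    rw [hL]; exact subset_adjoin _ _ ⟨i, rfl⟩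
  have hmK : ∀ i, F i ∈ K := fun i => by
    rw [hK]; exact subset_adjoin _ _ ⟨i, rfl⟩
  have hLK : L ≤ K := hLE.trans hEK
  obtain ⟨y, hy⟩ : ∃ y, y = F (.inr 0) := ⟨_, rfl⟩
  obtain ⟨a, ha⟩ : ∃ a : L, (a : W) = F' (.inr 0) := ⟨⟨_, hmL _⟩, rfl⟩
  obtain ⟨b, hb⟩ : ∃ b : L, (b : W) = F' (.inr 1) := ⟨⟨_, hmL _⟩, rfl⟩
  obtain ⟨c, hc⟩ : ∃ c : L, (c : W) = F' (.inr 2) := ⟨⟨_, hmL _⟩, rfl⟩
  obtain ⟨g, hg⟩ : ∃ g : Polynomial L, g = Polynomial.X ^ 3 - Polynomial.C (3 * a) *
    Polynomial.X ^ 2 + Polynomial.C (3 * b) * Polynomial.X - Polynomial.C c := ⟨_, rfl⟩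
  have gmon : g.Monic := by rw [hg]; monicity!
  have gdeg : g.natDegree = 3 := by rw [hg]; compute_degree!
  have girr : Irreducible g := by
    refine Polynomial.irreducible_of_degree_le_three_of_not_isRoot (by rw [gdeg]; simp) ?_
    intro ρ hρ
    rw [hg] at hρ
    simp only [Polynomial.IsRoot.def, Polynomial.eval_sub, Polynomial.eval_add,
      Polynomial.eval_mul, Polynomial.eval_pow, Polynomial.eval_X, Polynomial.eval_C] at hρ
    have h2 := congrArg (algebraMap L W) hρ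
    simp only [map_sub, map_add, map_mul, map_pow, map_ofNat, map_zero,
      IntermediateField.algebraMap_apply, ha, hb, hc] at h2
    exact no_root F' hF' ρ (by rw [← hL]; exact ρ.2) h2
  have gy : Polynomial.aeval y g = 0 := by
    rw [hg]
    simp only [map_sub, map_add, map_mul, map_pow, Polynomial.aeval_X, Polynomial.aeval_C,
      map_ofNat, IntermediateField.algebraMap_apply, ha, hb, hc]
    rw [hC, hy]
    linear_combination (-F (.inr 0) ^ 2) * hA + F (.inr 0) * hB
  have hmin : minpoly L y = g := (minpoly.eq_of_irreducible_of_monic girr gy gmon).symm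
  have hint : IsIntegral L y := ⟨g, gmon, gy⟩
  have hK' : extendScalars hLK = L⟮y⟯ := by
    apply le_antisymm
    · rw [extendScalars_le_iff, hK, adjoin_le_iff]
      have hLy : ∀ z ∈ L, z ∈ L⟮y⟯ := fun z hz => (L⟮y⟯).algebraMap_mem ⟨z, hz⟩
      have hyy : y ∈ L⟮y⟯ := mem_adjoin_simple_self L y
      have h2 : ∀ n : ℕ, [n.AtLeastTwo] → (OfNat.ofNat n : W) ∈ L⟮y⟯ :=
        fun n _ => ofNat_mem (L⟮y⟯) n
      have hp : F (.inr 1) ∈ L⟮y⟯ := by
        have : F (.inr 1) = (3 * F' (.inr 0) - y) / 2 := by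
          rw [hy, hA]; ring
        rw [this]
        exact div_mem (sub_mem (mul_mem (h2 3) (hLy _ (hmL _))) hyy) (h2 2)
      rintro _ ⟨i | i, rfl⟩
      · show F (.inl i) ∈ L⟮y⟯
        rw [← h1 i]
        exact hLy _ (hmL _)
      · show F (.inr i) ∈ L⟮y⟯
        fin_cases i
        · show F (.inr 0) ∈ L⟮y⟯
          rw [← hy]
          exact hyy
        · exact hp
        · show F (.inr 2) ∈ L⟮y⟯
          have : F (.inr 2) = 3 * F' (.inr 1) - 2 * y * F (.inr 1) := by
            rw [hy, hB]; ring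
          rw [this]
          exact sub_mem (mul_mem (h2 3) (hLy _ (hmL _))) (mul_mem (mul_mem (h2 2) hyy) hp)
    · rw [adjoin_simple_le_iff, mem_extendScalars, hy]
      exact hmK _
  have hfin : Module.finrank L (extendScalars hLK) = 3 := by
    rw [hK', adjoin.finrank hint, hmin, gdeg]
  have hle : extendScalars hLE ≤ extendScalars hLK := hEK
  have hdvd := finrank_dvd_of_le_right hle
  rw [hfin] at hdvd
  rcases (Nat.dvd_prime Nat.prime_three).1 hdvd with h | h
  · left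
    rw [IntermediateField.finrank_eq_one_iff] at h
    apply le_antisymm _ hLE
    intro e he
    have h2 : e ∈ extendScalars hLE := he
    rw [h, mem_bot] at h2
    obtain ⟨l, rfl⟩ := h2
    exact l.2
  · right
    have : FiniteDimensional L (extendScalars hLK) :=
      Module.finite_of_finrank_pos (by rw [hfin]; norm_num)
    have h2 := eq_of_le_of_finrank_eq hle (by rw [h, hfin])
    apply le_antisymm hEK
    intro e he
    have h3 : e ∈ extendScalars hLK := he
    rw [← h2] at h3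
    exact h3

end

theorem done : StmDeg3 := by
  intro k W _ _ _ _ r u v x q hY hY0
  obtain ⟨F, hF⟩ : ∃ F : Ch r → W, F = fun i => ptY u v x q (rrY r i) / ptY u v x q (j0 r) :=
    ⟨_, rfl⟩
  obtain ⟨F', hF'⟩ : ∃ F' : Ch r → W, F' = fun i => ptX u v (mulc x q) (rrX r i) /
    ptX u v (mulc x q) (j0 r) := ⟨_, rfl⟩
  have : CharZero W := charZero_of_injective_algebraMap (algebraMap k W).injective
  have h30 : (3 : W) ≠ 0 := by norm_num
  obtain ⟨w, hw⟩ : ∃ w, w = wdg u v (0, 1) := ⟨_, rfl⟩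
  obtain ⟨w0, hw0⟩ : ∃ w0, w0 = vec u v x 0 := ⟨_, rfl⟩
  obtain ⟨w1, hw1⟩ : ∃ w1, w1 = vec u v x 1 := ⟨_, rfl⟩
  obtain ⟨q0, hq0⟩ : ∃ q0, q0 = quad u v q (0, 0) := ⟨_, rfl⟩
  obtain ⟨q1, hq1⟩ : ∃ q1, q1 = quad u v q (0, 1) := ⟨_, rfl⟩
  obtain ⟨q2, hq2⟩ : ∃ q2, q2 = quad u v q (1, 1) := ⟨_, rfl⟩
  have eY0 : ptY u v x q (j0 r) = w * (w0 * q0) := by
    rw [hw, hw0, hq0]; rfl
  rw [eY0] at hY0
  have hwn : w ≠ 0 := left_ne_zero_of_mul hY0
  have hw0n : w0 ≠ 0 := left_ne_zero_of_mul (right_ne_zero_of_mul hY0)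
  have hq0n : q0 ≠ 0 := right_ne_zero_of_mul (right_ne_zero_of_mul hY0)
  have c0 : cub u v (mulc x q) (0, 0, 0) = 3 * w0 * q0 := by
    rw [cub_mulc]; simp only [← hw0, ← hq0]; ring
  have eX0 : ptX u v (mulc x q) (j0 r) = w * (3 * w0 * q0) := by
    rw [← c0, hw]; rfl
  have hX0 : ptX u v (mulc x q) (j0 r) ≠ 0 := by
    rw [eX0]
    exact mul_ne_zero hwn (mul_ne_zero (mul_ne_zero h30 hw0n) hq0n)
  have c1 : cub u v (mulc x q) (0, 0, 1) = 2 * w0 * q1 + w1 * q0 := by
    rw [cub_mulc]; simp only [← hw0, ← hq0, ← hw1, ← hq1]; ring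
  have c2 : cub u v (mulc x q) (0, 1, 1) = w0 * q2 + 2 * w1 * q1 := by
    rw [cub_mulc]; simp only [← hw0, ← hw1, ← hq1, ← hq2]; ring
  have c3 : cub u v (mulc x q) (1, 1, 1) = 3 * w1 * q2 := by
    rw [cub_mulc]; simp only [← hw1, ← hq2]; ring
  have f0 : F (.inr 0) = w1 / w0 := by
    rw [hF]
    show ptY u v x q ((0, 1), (1, 0, 0)) / ptY u v x q (j0 r) = _
    rw [eY0]
    show wdg u v (0, 1) * (vec u v x 1 * quad u v q (0, 0)) / _ = _
    rw [← hw, ← hw1, ← hq0]
    field_simp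
  have f1 : F (.inr 1) = q1 / q0 := by
    rw [hF]
    show ptY u v x q ((0, 1), (0, 0, 1)) / ptY u v x q (j0 r) = _
    rw [eY0]
    show wdg u v (0, 1) * (vec u v x 0 * quad u v q (0, 1)) / _ = _
    rw [← hw, ← hw0, ← hq1]
    field_simp
  have f2 : F (.inr 2) = q2 / q0 := by
    rw [hF]
    show ptY u v x q ((0, 1), (0, 1, 1)) / ptY u v x q (j0 r) = _
    rw [eY0]
    show wdg u v (0, 1) * (vec u v x 0 * quad u v q (1, 1)) / _ = _
    rw [← hw, ← hw0, ← hq2]
    field_simp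
  have g0 : F' (.inr 0) = (2 * w0 * q1 + w1 * q0) / (3 * w0 * q0) := by
    rw [hF']
    show ptX u v (mulc x q) ((0, 1), (0, 0, 1)) / ptX u v (mulc x q) (j0 r) = _
    rw [eX0]
    show wdg u v (0, 1) * cub u v (mulc x q) (0, 0, 1) / _ = _
    rw [← hw, c1]
    field_simp
  have g1 : F' (.inr 1) = (w0 * q2 + 2 * w1 * q1) / (3 * w0 * q0) := by
    rw [hF']
    show ptX u v (mulc x q) ((0, 1), (0, 1, 1)) / ptX u v (mulc x q) (j0 r) = _
    rw [eX0]
    show wdg u v (0, 1) * cub u v (mulc x q) (0, 1, 1) / _ = _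
    rw [← hw, c2]
    field_simp
  have g2 : F' (.inr 2) = (3 * w1 * q2) / (3 * w0 * q0) := by
    rw [hF']
    show ptX u v (mulc x q) ((0, 1), (1, 1, 1)) / ptX u v (mulc x q) (j0 r) = _
    rw [eX0]
    show wdg u v (0, 1) * cub u v (mulc x q) (1, 1, 1) / _ = _
    rw [← hw, c3]
    field_simp
  have hl : ∀ i, F' (.inl i) = F (.inl i) := by
    rintro ⟨i, j⟩
    rw [hF, hF']
    show wdg u v (if j = 0 then (i.succ.succ, 1) else (0, i.succ.succ)) *
      cub u v (mulc x q) (0, 0, 0) / ptX u v (mulc x q) (j0 r) =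
      wdg u v (if j = 0 then (i.succ.succ, 1) else (0, i.succ.succ)) *
      (vec u v x 0 * quad u v q (0, 0)) / ptY u v x q (j0 r)
    rw [eX0, eY0, c0, ← hw0, ← hq0]
    field_simp
  have hA : 3 * F' (.inr 0) = 2 * F (.inr 1) + F (.inr 0) := by
    rw [g0, f1, f0]; field_simp
  have hB : 3 * F' (.inr 1) = F (.inr 2) + 2 * F (.inr 0) * F (.inr 1) := by
    rw [g1, f2, f1, f0]; field_simp
  have hC : F' (.inr 2) = F (.inr 0) * F (.inr 2) := by
    rw [g2, f2, f0]; field_simp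
  rw [← hF] at hY ⊢
  rw [← hF']
  exact ⟨indep F F' hY hl hA hB hC, hX0, fun E h1 h2 => fields F F' hY hl hA hB hC E h1 h2⟩

end Pool.Agent.Y550.MC
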