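import Pool.Agent.Y198.MC.Stm

/-! The invariants of the covering, by weights of sections. -/

set_option autoImplicit false
set_option linter.unusedSectionVars false
set_option linter.unusedSimpArgs false

namespace Pool.Agent.Y550.MC.InvY

open MvPolynomial Pool.Agent.Y198.MC
open scoped NNReal

section
variable {k : Type} [Field k] {N : ℕ}

/-- the discriminant of the pair -/
def RR (x : Fin 2 → k) (q : Fin 3 → k) : k := q 0 * x 1 ^ 2 - 2 * q 1 * x 0 * x 1 + q 2 * x 0 ^ 2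

/-- the value at the normal form -/
noncomputable def phi (Φ : MvPolynomial (Fin N ⊕ (Fin N ⊕ (Fin 2 ⊕ Fin 3))) k) (u v : Fin N → k)
    (f : k) : k := eval (Sum.elim u (Sum.elim v (Sum.elim ![1, 0] ![f, 0, 1]))) Φ

theorem wdg_bas (g : Matrix (Fin 2) (Fin 2) k) (u v : Fin N → k) (h : g.det ≠ 0)
    (hw : wdg u v ≠ 0) : wdg (bas0 g u v) (bas1 g u v) ≠ 0 := by
  obtain ⟨s, hs⟩ := Function.ne_iff.1 hw
  refine Function.ne_iff.2 ⟨s, ?_⟩
  have : wdg (bas0 g u v) (bas1 g u v) s = g.det * wdg u v s := by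
    simp only [wdg, bas0, bas1, Matrix.det_fin_two]
    ring
  rw [this]
  exact mul_ne_zero h hs

theorem normal {D : Fin 3 → ℤ} {Φ : MvPolynomial (Fin N ⊕ (Fin N ⊕ (Fin 2 ⊕ Fin 3))) k}
    (hΦ : Φ ∈ secY k N D) (u v : Fin N → k) (x : Fin 2 → k) (q : Fin 3 → k) (hw : wdg u v ≠ 0)
    (hR : RR x q ≠ 0) :
    ∃ (u' v' : Fin N → k) (f : k), wdg u' v' ≠ 0 ∧
      (RR x q)⁻¹ ^ D 1 * phi Φ u' v' f =
        (-(RR x q)) ^ D 2 * eval (Sum.elim u (Sum.elim v (Sum.elim x q))) Φ := by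
  obtain ⟨g, hg⟩ : ∃ g : Matrix (Fin 2) (Fin 2) k,
    g = !![x 0, q 0 * x 1 - q 1 * x 0; x 1, q 1 * x 1 - q 2 * x 0] := ⟨_, rfl⟩
  have g00 : g 0 0 = x 0 := by rw [hg]; rfl
  have g01 : g 0 1 = q 0 * x 1 - q 1 * x 0 := by rw [hg]; rfl
  have g10 : g 1 0 = x 1 := by rw [hg]; rfl
  have g11 : g 1 1 = q 1 * x 1 - q 2 * x 0 := by rw [hg]; rfl
  have hdet : g.det = -(RR x q) := by
    rw [Matrix.det_fin_two, g00, g01, g10, g11]
    unfold RR
    ring
  have hdet0 : g.det ≠ 0 := by rw [hdet]; exact neg_ne_zero.2 hR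
  have hw' := wdg_bas g u v hdet0 hw
  refine ⟨bas0 g u v, bas1 g u v, q 0 * q 2 - q 1 ^ 2, hw', ?_⟩
  have h1 := (hΦ u v x q hw).2 g ![1, 0] ((RR x q)⁻¹ • ![q 0 * q 2 - q 1 ^ 2, 0, 1]) hdet0 (by
      funext i
      simp only [vec, bas0, bas1, Matrix.cons_val_zero, Matrix.cons_val_one, g00, g10]
      ring) (by
      funext s
      have h : (RR x q)⁻¹ * RR x q = 1 := inv_mul_cancel₀ hR
      simp only [quad, bas0, bas1, Matrix.cons_val_zero, Matrix.cons_val_one, Matrix.cons_val,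
        Pi.smul_apply, smul_eq_mul, g00, g01, g10, g11]
      unfold RR at h ⊢
      linear_combination (q 0 * (u s.1 * u s.2) + q 1 * (u s.1 * v s.2 + v s.1 * u s.2) +
        q 2 * (v s.1 * v s.2)) * h)
  have h2 := (hΦ (bas0 g u v) (bas1 g u v) ![1, 0] ![q 0 * q 2 - q 1 ^ 2, 0, 1] hw').1 1
    (RR x q)⁻¹ one_ne_zero (inv_ne_zero hR)
  rw [one_smul, one_zpow, one_mul] at h2
  rw [← hdet, ← h1, h2]
  rfl

/-- a section which vanishes at the normal forms is zero -/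
theorem eq_zero [Infinite k] (hN : 2 ≤ N) {D : Fin 3 → ℤ}
    {Φ : MvPolynomial (Fin N ⊕ (Fin N ⊕ (Fin 2 ⊕ Fin 3))) k}
    (hΦ : Φ ∈ secY k N D) (h : ∀ (u v : Fin N → k) (f : k), wdg u v ≠ 0 → phi Φ u v f = 0) :
    Φ = 0 := by
  obtain ⟨i₀, hi₀⟩ : ∃ i : Fin N, (i : ℕ) = 0 := ⟨⟨0, by omega⟩, rfl⟩
  obtain ⟨i₁, hi₁⟩ : ∃ i : Fin N, (i : ℕ) = 1 := ⟨⟨1, by omega⟩, rfl⟩
  have hi : i₀ ≠ i₁ := fun e => by rw [e, hi₁] at hi₀; omega
  obtain ⟨P, hP⟩ : ∃ P : MvPolynomial (Fin N ⊕ (Fin N ⊕ (Fin 2 ⊕ Fin 3))) k,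
    P = X (.inl i₀) * X (.inr (.inl i₁)) - X (.inr (.inl i₀)) * X (.inl i₁) := ⟨_, rfl⟩
  obtain ⟨Q, hQ⟩ : ∃ Q : MvPolynomial (Fin N ⊕ (Fin N ⊕ (Fin 2 ⊕ Fin 3))) k,
    Q = X (.inr (.inr (.inr 0))) * X (.inr (.inr (.inl 1))) ^ 2 -
      2 * X (.inr (.inr (.inr 1))) * X (.inr (.inr (.inl 0))) * X (.inr (.inr (.inl 1))) +
      X (.inr (.inr (.inr 2))) * X (.inr (.inr (.inl 0))) ^ 2 := ⟨_, rfl⟩
  have hP0 : P ≠ 0 := by
    intro e
    have := congrArg (eval (Sum.elim (fun i => if i = i₀ then (1 : k) else 0)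
      (Sum.elim (fun i => if i = i₁ then (1 : k) else 0) (Sum.elim (fun _ : Fin 2 => (0 : k))
        (fun _ : Fin 3 => (0 : k)))))) e
    rw [hP] at this
    simp [hi] at this
  have hQ0 : Q ≠ 0 := by
    intro e
    have := congrArg (eval (Sum.elim (fun _ : Fin N => (0 : k))
      (Sum.elim (fun _ : Fin N => (0 : k)) (Sum.elim ![(1 : k), 0] ![(0 : k), 0, 1])))) e
    rw [hQ] at this
    simp at this
  have hall : Φ * P * Q = 0 := by
    apply MvPolynomial.funext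
    intro c
    obtain ⟨u, hu⟩ : ∃ u : Fin N → k, u = fun i => c (.inl i) := ⟨_, rfl⟩
    obtain ⟨v, hv⟩ : ∃ v : Fin N → k, v = fun i => c (.inr (.inl i)) := ⟨_, rfl⟩
    obtain ⟨x, hx⟩ : ∃ x : Fin 2 → k, x = fun i => c (.inr (.inr (.inl i))) := ⟨_, rfl⟩
    obtain ⟨q, hq⟩ : ∃ q : Fin 3 → k, q = fun i => c (.inr (.inr (.inr i))) := ⟨_, rfl⟩
    have hc : c = Sum.elim u (Sum.elim v (Sum.elim x q)) := by
      funext i
      rcases i with i | i | i | i
      · rw [hu]; rfl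
      · rw [hv]; rfl
      · rw [hx]; rfl
      · rw [hq]; rfl
    rw [map_mul, map_mul, map_zero]
    by_cases hw : wdg u v = 0
    · have : eval c P = 0 := by
        have h2 := congrFun hw (i₀, i₁)
        rw [hP, hc]
        simpa [wdg] using h2
      rw [this, mul_zero, zero_mul]
    by_cases hR : RR x q = 0
    · have : eval c Q = 0 := by
        rw [hQ, hc]
        simpa [RR] using hR
      rw [this, mul_zero]
    · obtain ⟨u', v', f, hw', e⟩ := normal hΦ u v x q hw hR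
      rw [h u' v' f hw', mul_zero] at e
      have h2 : eval c Φ = 0 := by
        rw [hc]
        rcases mul_eq_zero.1 e.symm with h3 | h3
        · exact absurd h3 (zpow_ne_zero _ (neg_ne_zero.2 hR))
        · exact h3
      rw [h2, zero_mul, zero_mul]
  rcases mul_eq_zero.1 hall with h1 | h1
  · rcases mul_eq_zero.1 h1 with h2 | h2
    · exact h2
    · exact absurd h2 hP0
  · exact absurd h1 hQ0

/-- weights -/
theorem weight {D : Fin 3 → ℤ} {Φ : MvPolynomial (Fin N ⊕ (Fin N ⊕ (Fin 2 ⊕ Fin 3))) k}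
    (hΦ : Φ ∈ secY k N D) (u v : Fin N → k) (f α β : k) (hw : wdg u v ≠ 0) (hα : α ≠ 0)
    (hβ : β ≠ 0) : phi Φ (α • u) (β • v) (α⁻¹ ^ 2 * β ^ 2 * f) =
      α ^ (D 0 + D 2) * β ^ (2 * D 1 + D 2) * phi Φ u v f := by
  obtain ⟨g, hg⟩ : ∃ g : Matrix (Fin 2) (Fin 2) k, g = !![α, 0; 0, β] := ⟨_, rfl⟩
  have g00 : g 0 0 = α := by rw [hg]; rfl
  have g01 : g 0 1 = 0 := by rw [hg]; rfl
  have g10 : g 1 0 = 0 := by rw [hg]; rfl
  have g11 : g 1 1 = β := by rw [hg]; rfl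
  have hdet : g.det = α * β := by
    rw [Matrix.det_fin_two, g00, g01, g10, g11]; ring
  have hdet0 : g.det ≠ 0 := by rw [hdet]; exact mul_ne_zero hα hβ
  have e0 : bas0 g u v = α • u := by
    funext i; simp [bas0, g00, g10]
  have e1 : bas1 g u v = β • v := by
    funext i; simp [bas1, g01, g11]
  have hw' := wdg_bas g u v hdet0 hw
  have h1 := (hΦ u v ![1, 0] ![f, 0, 1] hw).2 g (α⁻¹ • ![1, 0])
    ((β⁻¹ ^ 2) • ![α⁻¹ ^ 2 * β ^ 2 * f, 0, 1]) hdet0 (by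
      rw [e0, e1]
      funext i
      simp only [vec, Matrix.cons_val_zero, Matrix.cons_val_one, Pi.smul_apply, smul_eq_mul]
      field_simp
      ring) (by
      rw [e0, e1]
      funext s
      simp only [quad, Matrix.cons_val_zero, Matrix.cons_val_one, Matrix.cons_val,
        Pi.smul_apply, smul_eq_mul]
      field_simp
      ring)
  have h2 := (hΦ (bas0 g u v) (bas1 g u v) ![1, 0] ![α⁻¹ ^ 2 * β ^ 2 * f, 0, 1] hw').1 α⁻¹
    (β⁻¹ ^ 2) (inv_ne_zero hα) (pow_ne_zero _ (inv_ne_zero hβ))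
  rw [h1, hdet, e0, e1] at h2
  have h3 : (α * β) ^ D 2 * phi Φ u v f = α⁻¹ ^ D 0 * (β⁻¹ ^ 2) ^ D 1 *
    phi Φ (α • u) (β • v) (α⁻¹ ^ 2 * β ^ 2 * f) := h2
  have h4 : α ^ D 0 * α⁻¹ ^ D 0 = 1 := by
    rw [← mul_zpow, mul_inv_cancel₀ hα, one_zpow]
  have h5 : β ^ (2 * D 1) * (β⁻¹ ^ 2) ^ D 1 = 1 := by
    rw [zpow_mul, ← mul_zpow, zpow_ofNat, ← mul_pow, mul_inv_cancel₀ hβ, one_pow, one_zpow]
  rw [zpow_add₀ hα, zpow_add₀ hβ]
  rw [mul_zpow] at h3
  calc phi Φ (α • u) (β • v) (α⁻¹ ^ 2 * β ^ 2 * f) =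
      (α ^ D 0 * α⁻¹ ^ D 0) * (β ^ (2 * D 1) * (β⁻¹ ^ 2) ^ D 1) *
        phi Φ (α • u) (β • v) (α⁻¹ ^ 2 * β ^ 2 * f) := by rw [h4, h5]; ring
    _ = α ^ D 0 * β ^ (2 * D 1) * (α⁻¹ ^ D 0 * (β⁻¹ ^ 2) ^ D 1 *
        phi Φ (α • u) (β • v) (α⁻¹ ^ 2 * β ^ 2 * f)) := by ring
    _ = _ := by rw [← h3]; ring

theorem poly_val [Infinite k] (p : Polynomial k) (c : k) (n : ℕ)
    (h : ∀ β : k, β ≠ 0 → β ^ n * p.eval β = c) : (0 : k) ^ n * p.eval 0 = c := by
  have h1 : Polynomial.X * (Polynomial.X ^ n * p - Polynomial.C c) = 0 := by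
    apply Polynomial.funext
    intro β
    rw [Polynomial.eval_mul, Polynomial.eval_X, Polynomial.eval_zero]
    by_cases hβ : β = 0
    · rw [hβ, zero_mul]
    · simp [h β hβ]
  have h2 : Polynomial.X ^ n * p = Polynomial.C c := by
    rcases mul_eq_zero.1 h1 with h3 | h3
    · exact absurd h3 Polynomial.X_ne_zero
    · exact sub_eq_zero.1 h3
  have h3 := congrArg (Polynomial.eval 0) h2
  simpa using h3

/-- the values on a curve are the values of a polynomial -/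
theorem exists_poly (Φ : MvPolynomial (Fin N ⊕ (Fin N ⊕ (Fin 2 ⊕ Fin 3))) k)
    (P : Fin N ⊕ (Fin N ⊕ (Fin 2 ⊕ Fin 3)) → Polynomial k) :
    ∀ β : k, (aeval P Φ).eval β = eval (fun i => (P i).eval β) Φ := by
  intro β
  have h := comp_aeval_apply P (Polynomial.aeval β : Polynomial k →ₐ[k] k) Φ
  rw [Polynomial.coe_aeval_eq_eval] at h
  rw [h]
  rfl

theorem exists_poly1 (Φ : MvPolynomial (Fin N ⊕ (Fin N ⊕ (Fin 2 ⊕ Fin 3))) k)
    (u v : Fin N → k) (f : k) : ∃ p : Polynomial k, ∀ β : k, p.eval β =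
      phi Φ u (β • v) (β ^ 2 * f) := by
  refine ⟨aeval (Sum.elim (fun i => Polynomial.C (u i)) (Sum.elim
    (fun i => Polynomial.X * Polynomial.C (v i)) (Sum.elim ![1, 0]
      ![Polynomial.X ^ 2 * Polynomial.C f, 0, 1]))) Φ, fun β => ?_⟩
  rw [exists_poly]
  unfold phi
  congr 2
  funext i
  rcases i with i | i | i | i
  · simp
  · simp
    exact mul_comm _ _
  · fin_cases i <;> simp
  · fin_cases i
    · simp
      exact mul_comm _ _
    · simp
    · simp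

theorem exists_poly2 (Φ : MvPolynomial (Fin N ⊕ (Fin N ⊕ (Fin 2 ⊕ Fin 3))) k)
    (u : Fin N → k) : ∃ p : Polynomial k, ∀ β : k, p.eval β = phi Φ (β • u) 0 0 := by
  refine ⟨aeval (Sum.elim (fun i => Polynomial.X * Polynomial.C (u i)) (Sum.elim
    (fun _ => 0) (Sum.elim ![1, 0] ![0, 0, 1]))) Φ, fun β => ?_⟩
  rw [exists_poly]
  unfold phi
  congr 2
  funext i
  rcases i with i | i | i | i
  · simp
    exact mul_comm _ _
  · simp
  · fin_cases i <;> simp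
  · fin_cases i <;> simp

theorem nonneg [Infinite k] (hN : 2 ≤ N) {D : Fin 3 → ℤ}
    {Φ : MvPolynomial (Fin N ⊕ (Fin N ⊕ (Fin 2 ⊕ Fin 3))) k} (hΦ : Φ ∈ secY k N D) (h0 : Φ ≠ 0) :
    0 ≤ 2 * D 1 + D 2 := by
  by_contra hneg
  push Not at hneg
  apply h0
  apply eq_zero hN hΦ
  intro u v f hw
  obtain ⟨p, hp⟩ := exists_poly1 Φ u v f
  obtain ⟨n, hn⟩ : ∃ n : ℕ, (n : ℤ) = -(2 * D 1 + D 2) := ⟨(-(2 * D 1 + D 2)).toNat, by omega⟩
  have h1 := poly_val p (phi Φ u v f) n (by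
    intro β hβ
    have h2 := weight hΦ u v f 1 β hw one_ne_zero hβ
    rw [one_smul, inv_one, one_pow, one_mul, one_zpow, one_mul] at h2
    rw [hp, h2, ← mul_assoc, ← zpow_natCast, ← zpow_add₀ hβ, hn, neg_add_cancel, zpow_zero,
      one_mul])
  rw [zero_pow (by omega), zero_mul] at h1
  exact h1.symm

theorem const [Infinite k] {D : Fin 3 → ℤ}
    {Φ : MvPolynomial (Fin N ⊕ (Fin N ⊕ (Fin 2 ⊕ Fin 3))) k} (hΦ : Φ ∈ secY k N D)
    (hD : D 0 + D 2 = 0) (hD' : 2 * D 1 + D 2 = 0) (u v : Fin N → k) (f : k) (hw : wdg u v ≠ 0) :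
    phi Φ u v f = phi Φ 0 0 0 := by
  have h1 : ∀ (u v : Fin N → k) (f : k), wdg u v ≠ 0 → phi Φ u 0 0 = phi Φ u v f := by
    intro u v f hw
    obtain ⟨p, hp⟩ := exists_poly1 Φ u v f
    have h1 := poly_val p (phi Φ u v f) 0 (by
      intro β hβ
      have h2 := weight hΦ u v f 1 β hw one_ne_zero hβ
      rw [one_smul, inv_one, one_pow, one_mul, one_zpow, one_mul, hD', zpow_zero, one_mul] at h2
      rw [hp, h2, pow_zero, one_mul])
    rw [pow_zero, one_mul, hp] at h1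
    simpa using h1
  rw [← h1 u v f hw]
  obtain ⟨p, hp⟩ := exists_poly2 Φ u
  have h2 := poly_val p (phi Φ u 0 0) 0 (by
    intro β hβ
    have h3 := weight hΦ u v 0 β 1 hw hβ one_ne_zero
    rw [one_smul, one_zpow, mul_one, hD, zpow_zero, one_mul, one_pow, mul_one, mul_zero] at h3
    have hw' : wdg (β • u) v ≠ 0 := by
      obtain ⟨s, hs⟩ := Function.ne_iff.1 hw
      refine Function.ne_iff.2 ⟨s, ?_⟩
      have : wdg (β • u) v s = β * wdg u v s := by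
        simp only [wdg, Pi.smul_apply, smul_eq_mul]
        ring
      rw [this]
      exact mul_ne_zero hβ hs
    rw [hp, pow_zero, one_mul, h1 (β • u) v 0 hw', h3, h1 u v 0 hw])
  rw [pow_zero, one_mul, hp, zero_smul] at h2
  exact h2.symm

theorem lin {D : Fin 3 → ℤ} {Φ₁ Φ₂ : MvPolynomial (Fin N ⊕ (Fin N ⊕ (Fin 2 ⊕ Fin 3))) k}
    (h1 : Φ₁ ∈ secY k N D) (h2 : Φ₂ ∈ secY k N D) (a b : k) : a • Φ₁ + b • Φ₂ ∈ secY k N D := by
  intro u v x q hw
  refine ⟨fun s r hs hr => ?_, fun g x' q' hg hx hq => ?_⟩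
  · rw [map_add, map_add, smul_eval, smul_eval, smul_eval, smul_eval,
      (h1 u v x q hw).1 s r hs hr, (h2 u v x q hw).1 s r hs hr]
    ring
  · rw [map_add, map_add, smul_eval, smul_eval, smul_eval, smul_eval,
      (h1 u v x q hw).2 g x' q' hg hx hq, (h2 u v x q hw).2 g x' q' hg hx hq]
    ring

/-- the section of class `(2, 1, -2)` -/
noncomputable def RP (k : Type) [Field k] (N : ℕ) :
    MvPolynomial (Fin N ⊕ (Fin N ⊕ (Fin 2 ⊕ Fin 3))) k :=
  X (.inr (.inr (.inr 0))) * X (.inr (.inr (.inl 1))) ^ 2 -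
      2 * X (.inr (.inr (.inr 1))) * X (.inr (.inr (.inl 0))) * X (.inr (.inr (.inl 1))) +
      X (.inr (.inr (.inr 2))) * X (.inr (.inr (.inl 0))) ^ 2

theorem eval_RP (u v : Fin N → k) (x : Fin 2 → k) (q : Fin 3 → k) :
    eval (Sum.elim u (Sum.elim v (Sum.elim x q))) (RP k N) = RR x q := by
  simp [RP, RR]

theorem RP_ne : RP k N ≠ 0 := by
  intro e
  have := congrArg (eval (Sum.elim (fun _ : Fin N => (0 : k))
    (Sum.elim (fun _ : Fin N => (0 : k)) (Sum.elim ![(1 : k), 0] ![(0 : k), 0, 1])))) e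
  rw [eval_RP] at this
  simp [RR] at this

theorem RP_mem : RP k N ∈ secY k N ![2, 1, -2] := by
  intro u v x q hw
  refine ⟨fun s r hs hr => ?_, fun g x' q' hg hx hq => ?_⟩
  · rw [eval_RP, eval_RP]
    simp only [RR, Pi.smul_apply, smul_eq_mul, Matrix.cons_val_zero, Matrix.cons_val_one, zpow_one]
    rw [show (s ^ (2 : ℤ)) = s ^ 2 from zpow_ofNat s 2]
    ring
  · rw [eval_RP, eval_RP]
    obtain ⟨⟨i, j⟩, hij⟩ := Function.ne_iff.1 hw
    simp only [Pi.zero_apply] at hij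
    have hx1 := congrFun hx i
    have hx2 := congrFun hx j
    have hq1 := congrFun hq (i, i)
    have hq2 := congrFun hq (i, j)
    have hq3 := congrFun hq (j, j)
    simp only [vec, quad, bas0, bas1, Matrix.det_fin_two, wdg] at hx1 hx2 hq1 hq2 hq3 hij hg ⊢
    have ex0 : x 0 = g 0 0 * x' 0 + g 0 1 * x' 1 := by
      apply mul_left_cancel₀ hij
      linear_combination v i * hx2 - v j * hx1
    have ex1 : x 1 = g 1 0 * x' 0 + g 1 1 * x' 1 := by
      apply mul_left_cancel₀ hij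
      linear_combination u j * hx1 - u i * hx2
    have eq0 : q 0 = g 0 0 ^ 2 * q' 0 + 2 * g 0 0 * g 0 1 * q' 1 + g 0 1 ^ 2 * q' 2 := by
      apply mul_left_cancel₀ (pow_ne_zero 2 hij)
      linear_combination (-v j ^ 2) * hq1 + 2 * v i * v j * hq2 - v i ^ 2 * hq3
    have eq1 : q 1 = g 0 0 * g 1 0 * q' 0 + (g 0 0 * g 1 1 + g 1 0 * g 0 1) * q' 1 +
        g 0 1 * g 1 1 * q' 2 := by
      apply mul_left_cancel₀ (pow_ne_zero 2 hij)
      linear_combination (u j * v j) * hq1 - (u i * v j + v i * u j) * hq2 + u i * v i * hq3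
    have eq2 : q 2 = g 1 0 ^ 2 * q' 0 + 2 * g 1 0 * g 1 1 * q' 1 + g 1 1 ^ 2 * q' 2 := by
      apply mul_left_cancel₀ (pow_ne_zero 2 hij)
      linear_combination (-u j ^ 2) * hq1 + 2 * u i * u j * hq2 - u i ^ 2 * hq3
    have h3 : RR x q = (g 0 0 * g 1 1 - g 0 1 * g 1 0) ^ 2 * RR x' q' := by
      unfold RR
      rw [ex0, ex1, eq0, eq1, eq2]
      ring
    rw [h3]
    show _ = (g 0 0 * g 1 1 - g 0 1 * g 1 0) ^ (-2 : ℤ) * _
    rw [zpow_neg, zpow_ofNat, ← mul_assoc, inv_mul_cancel₀ (pow_ne_zero 2 hg), one_mul]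

end

theorem KL (N : ℕ) : KY N + (1 : ℝ) • LY N = ![2, 1, -2] := by
  funext i
  fin_cases i
  · simp [KY, LY]; norm_num
  · simp [KY, LY]; norm_num
  · simp [KY, LY]; norm_num

theorem done : StmInvY := by
  intro k _ _ _ N hN
  have : Infinite k := IsAlgClosed.instInfinite
  have hN2 : 2 ≤ N := by omega
  have ha : aY k N = 1 := by
    apply IsLeast.csInf_eq
    constructor
    · show KY N + (1 : ℝ) • LY N ∈ closure _
      rw [KL]
      apply subset_closure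
      apply Submodule.subset_span
      refine ⟨![2, 1, -2], ?_, RP k N, RP_mem, RP_ne⟩
      intro i
      fin_cases i <;> simp
    · intro t ht
      have hcl : IsClosed {D : Fin 3 → ℝ | 0 ≤ 2 * D 1 + D 2} :=
        isClosed_le continuous_const (by fun_prop)
      have hsub : (Submodule.span ℝ≥0 (effY k N) : Set (Fin 3 → ℝ)) ⊆
          {D : Fin 3 → ℝ | 0 ≤ 2 * D 1 + D 2} := by
        intro D hD
        induction hD using Submodule.span_induction with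
        | mem D hD =>
          obtain ⟨z, hz, Φ, hΦ, hΦ0⟩ := hD
          have h1 := nonneg hN2 hΦ hΦ0
          show 0 ≤ 2 * D 1 + D 2
          rw [hz 1, hz 2]
          exact_mod_cast h1
        | zero => show (0 : ℝ) ≤ 2 * (0 : Fin 3 → ℝ) 1 + (0 : Fin 3 → ℝ) 2; simp
        | add D D' _ _ h1 h2 =>
          have h1' : 0 ≤ 2 * D 1 + D 2 := h1
          have h2' : 0 ≤ 2 * D' 1 + D' 2 := h2
          show 0 ≤ 2 * (D 1 + D' 1) + (D 2 + D' 2)
          linarith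
        | smul a D _ h1 =>
          have h1' : 0 ≤ 2 * D 1 + D 2 := h1
          show 0 ≤ 2 * ((a : ℝ) * D 1) + (a : ℝ) * D 2
          have := mul_nonneg a.2 h1'
          have h3 : (a : ℝ) * (2 * D 1 + D 2) = 2 * ((a : ℝ) * D 1) + (a : ℝ) * D 2 := by ring
          rw [← h3]
          exact this
      have h1 : 0 ≤ 2 * (KY N + t • LY N) 1 + (KY N + t • LY N) 2 := closure_minimal hsub hcl ht
      have h2 : 2 * (KY N + t • LY N) 1 + (KY N + t • LY N) 2 = (N + 2) * (t - 1) := by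
        simp [KY, LY]; ring
      rw [h2] at h1
      by_contra hlt
      push Not at hlt
      have h3 : (0 : ℝ) < N + 2 := by positivity
      have : (N + 2 : ℝ) * (t - 1) < 0 := mul_neg_of_pos_of_neg h3 (by linarith)
      linarith
  refine ⟨ha, ?_, ?_⟩
  · rintro ⟨m, D, hm, hD, Φ₁, h1, Φ₂, h2, hli⟩
    rw [ha, KL] at hD
    have d0 : D 0 = 2 * m := by
      have := hD 0
      simp only [Matrix.cons_val_zero] at this
      have h3 : ((D 0 : ℤ) : ℝ) = ((2 * (m : ℤ) : ℤ) : ℝ) := by rw [this]; push_cast; ring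
      exact_mod_cast h3
    have d1 : D 1 = m := by
      have := hD 1
      simp only [Matrix.cons_val_one] at this
      have h3 : ((D 1 : ℤ) : ℝ) = (((m : ℤ) : ℤ) : ℝ) := by rw [this]; push_cast; simp
      exact_mod_cast h3
    have d2 : D 2 = -2 * m := by
      have := hD 2
      simp only [Matrix.cons_val] at this
      have h3 : ((D 2 : ℤ) : ℝ) = ((-2 * (m : ℤ) : ℤ) : ℝ) := by rw [this]; push_cast; ring
      exact_mod_cast h3
    have hD1 : D 0 + D 2 = 0 := by rw [d0, d2]; ring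
    have hD2 : 2 * D 1 + D 2 = 0 := by rw [d1, d2]; ring
    rw [LinearIndependent.pair_iff] at hli
    have h3 := eq_zero hN2 (lin h1 h2 (phi Φ₂ 0 0 0) (-phi Φ₁ 0 0 0)) (by
      intro u v f hw
      have e : phi (phi Φ₂ 0 0 0 • Φ₁ + -phi Φ₁ 0 0 0 • Φ₂) u v f =
          phi Φ₂ 0 0 0 * phi Φ₁ u v f + -phi Φ₁ 0 0 0 * phi Φ₂ u v f := by
        show eval _ (phi Φ₂ 0 0 0 • Φ₁ + -phi Φ₁ 0 0 0 • Φ₂) = _
        rw [map_add, smul_eval, smul_eval]
        rfl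
      rw [e, const h1 hD1 hD2 u v f hw, const h2 hD1 hD2 u v f hw]
      ring)
    obtain ⟨h4, h5⟩ := hli _ _ h3
    have h6 := eq_zero hN2 h1 (fun u v f hw => by
      rw [const h1 hD1 hD2 u v f hw]
      exact neg_eq_zero.1 h5)
    have h7 := hli 1 0 (by rw [h6]; simp)
    exact one_ne_zero h7.1
  · rintro γ ⟨-, h1⟩ γ' ⟨-, h2⟩ h3
    rw [ha, KL, Fin.sum_univ_three] at h1 h2
    simp only [Matrix.cons_val_zero, Matrix.cons_val_one, Matrix.cons_val] at h1 h2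
    have e1 : γ 2 = γ' 2 := congrArg Prod.fst h3
    have e2 : γ 0 + γ 1 = γ' 0 + γ' 1 := congrArg Prod.snd h3
    have e3 : γ 0 = γ' 0 := by linarith
    have e4 : γ 1 = γ' 1 := by linarith
    funext i
    fin_cases i
    · exact e3
    · exact e4
    · exact e1

end Pool.Agent.Y550.MC.InvY
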